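import Pool.Agent.W465.LV.Defs

/-!
Avoiding finitely many residues modulo the large primes.
-/

set_option autoImplicit false

namespace Pool.Agent.W465.LV

open Polynomial

private lemma avoid_aux (F : Type) [Field F] (p : ℕ) [Fact p.Prime] [CharP F p]
    (ι : Type) [Fintype ι] (c : ι → F[X]) (Q : F[X]) (hQ : Q ≠ 0)
    (hsmall : ∀ P : F[X], Irreducible P → P.natDegree ≤ Fintype.card ι → P ∣ Q)
    (A : Finset F[X]) :
    (∀ P ∈ A, Irreducible P ∧ P.Monic ∧ ¬ P ∣ Q) →
      ∃ D : F[X], Q ∣ D ∧ ∀ P ∈ A, ∀ i, ¬ P ∣ D ^ p + c i := by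
  classical
  induction A using Finset.induction_on with
  | empty =>
    intro _
    exact ⟨0, dvd_zero _, by simp⟩
  | insert P A hPA ih =>
    intro hall
    obtain ⟨D, hQD, hD⟩ := ih (fun B hB => hall B (Finset.mem_insert_of_mem hB))
    obtain ⟨hPi, hPm, hPQ⟩ := hall P (Finset.mem_insert_self _ _)
    have hPp : Prime P := hPi.prime
    set M : F[X] := Q * ∏ B ∈ A, B with hM
    have hPM : ¬ P ∣ M := by
      intro h
      rcases hPp.dvd_or_dvd h with h1 | h1
      · exact hPQ h1
      · obtain ⟨B, hBA, hPB⟩ := (hPp.dvd_finsetProd_iff _).1 h1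
        obtain ⟨hBi, hBm, _⟩ := hall B (Finset.mem_insert_of_mem hBA)
        have hass : Associated P B := hPi.associated_of_dvd hBi hPB
        have : P = B := eq_of_monic_of_associated hPm hBm hass
        exact hPA (this ▸ hBA)
    have key : ∃ a : Fin (Fintype.card ι + 1), ∀ i, ¬ P ∣ (D + M * X ^ (a : ℕ)) ^ p + c i := by
      by_contra hcon
      push Not at hcon
      choose g hg using hcon
      obtain ⟨a, b, hab, hgab⟩ := Fintype.exists_ne_map_eq_of_card_lt g (by simp)
      have h1 : P ∣ ((D + M * X ^ (a : ℕ)) ^ p + c (g a)) -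
          ((D + M * X ^ (b : ℕ)) ^ p + c (g b)) := dvd_sub (hg a) (hg b)
      have h2 : ((D + M * X ^ (a : ℕ)) ^ p + c (g a)) -
          ((D + M * X ^ (b : ℕ)) ^ p + c (g b)) = (M * (X ^ (a : ℕ) - X ^ (b : ℕ))) ^ p := by
        have h3 : M * (X ^ (a : ℕ) - X ^ (b : ℕ)) =
            (D + M * X ^ (a : ℕ)) - (D + M * X ^ (b : ℕ)) := by ring
        rw [h3, sub_pow_char, hgab]
        ring
      rw [h2] at h1
      have h4 := hPp.dvd_of_dvd_pow h1
      rcases hPp.dvd_or_dvd h4 with h5 | h5
      · exact hPM h5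
      · have hne : (a : ℕ) ≠ (b : ℕ) := fun h => hab (Fin.ext h)
        have hne0 : (X ^ (a : ℕ) - X ^ (b : ℕ) : F[X]) ≠ 0 := by
          intro h0
          have h6 : (X ^ (a : ℕ) : F[X]) = X ^ (b : ℕ) := sub_eq_zero.1 h0
          have h7 := congrArg natDegree h6
          simp only [natDegree_X_pow] at h7
          exact hne h7
        have hdeg : P.natDegree ≤ (X ^ (a : ℕ) - X ^ (b : ℕ) : F[X]).natDegree :=
          natDegree_le_of_dvd h5 hne0
        have hdeg2 : (X ^ (a : ℕ) - X ^ (b : ℕ) : F[X]).natDegree ≤ Fintype.card ι := by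
          refine (natDegree_sub_le _ _).trans ?_
          simp only [natDegree_X_pow]
          have := a.2
          have := b.2
          omega
        exact hPQ (hsmall P hPi (hdeg.trans hdeg2))
    obtain ⟨a, ha⟩ := key
    refine ⟨D + M * X ^ (a : ℕ), dvd_add hQD ((dvd_mul_right _ _).mul_right _), ?_⟩
    intro B hB i
    rcases Finset.mem_insert.1 hB with rfl | hBA
    · exact ha i
    · intro hdvd
      have hBM : B ∣ M * X ^ (a : ℕ) := by
        refine Dvd.dvd.mul_right ?_ _
        exact (Finset.dvd_prod_of_mem _ hBA).mul_left _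
      have h8 : (D + M * X ^ (a : ℕ)) ^ p + c i =
          (D ^ p + c i) + (M * X ^ (a : ℕ)) ^ p := by
        rw [add_pow_char]
        ring
      rw [h8] at hdvd
      have hp0 : p ≠ 0 := (Fact.out : p.Prime).ne_zero
      have h9 : B ∣ (M * X ^ (a : ℕ)) ^ p := dvd_pow hBM hp0
      exact hD B hBA i ((dvd_add_left h9).1 hdvd)

/-- avoiding finitely many residues modulo all primes dividing `R` but not `Q` -/
theorem avoid : S_AVOID := by
  intro F _ p _ _ ι _ c Q R hQ hR hsmall
  classical
  obtain ⟨D, hQD, hD⟩ := avoid_aux F p ι c Q hQ hsmall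
    ((UniqueFactorizationMonoid.normalizedFactors R).toFinset.filter (fun P => ¬ P ∣ Q)) (by
      intro P hP
      rw [Finset.mem_filter, Multiset.mem_toFinset] at hP
      refine ⟨UniqueFactorizationMonoid.irreducible_of_normalized_factor P hP.1, ?_, hP.2⟩
      have h1 := UniqueFactorizationMonoid.normalize_normalized_factor P hP.1
      have h0 : P ≠ 0 := (UniqueFactorizationMonoid.irreducible_of_normalized_factor P hP.1).ne_zero
      rw [← h1]
      exact monic_normalize h0)
  refine ⟨D, hQD, ?_⟩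
  intro P hP hPR
  by_cases hPQ : P ∣ Q
  · exact Or.inl hPQ
  · right
    intro i hdvd
    obtain ⟨P', hP', hass⟩ :=
      UniqueFactorizationMonoid.exists_mem_normalizedFactors_of_dvd hR hP hPR
    have hnot : ¬ P' ∣ Q := fun h => hPQ (hass.dvd.trans h)
    exact hD P' (by
      rw [Finset.mem_filter, Multiset.mem_toFinset]
      exact ⟨hP', hnot⟩) i (hass.symm.dvd.trans hdvd)

end Pool.Agent.W465.LV
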