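import Pool.Agent.W465.LV.Defs2

set_option autoImplicit false

namespace Pool.Agent.W465.LV

open Polynomial

theorem lam_sq {F : Type} [Field F] (f : F[X]) : lam f * lam f = 1 := by
  rw [lam, ← mul_pow]; norm_num

theorem sep_of_coprime {F : Type} [Field F] (P G D : F[X]) (hD : D = derivative (P * G))
    (h : IsCoprime G D) : IsCoprime G (derivative G) := by
  rw [hD, derivative_mul, add_comm] at h
  have h1 : P * derivative G + derivative P * G = P * derivative G + G * derivative P := by ring
  rw [h1] at h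
  exact (IsCoprime.of_add_mul_left_right h).of_mul_right_right

theorem der_ne {F : Type} [Field F] (G : F[X]) (hd : 0 < G.natDegree)
    (h : IsCoprime G (derivative G)) : derivative G ≠ 0 := by
  intro h0
  rw [h0, isCoprime_zero_right] at h
  have := natDegree_eq_zero_of_isUnit h
  omega

theorem sy_der {F : Type} [Field F] [Fintype F] [DecidableEq F] (hsym : S_SYM)
    (P G D : F[X]) (hP : P.Monic) (hG : G.Monic) (hD : D = derivative (P * G))
    (hG' : derivative G ≠ 0) : sy G D = sy G P * sy G (derivative G) := by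
  obtain ⟨-, -, h3, -, -, h6, -⟩ := hsym F
  rw [← h3 G P (derivative G) hP.ne_zero hG']
  apply h6 G _ _ hG
  rw [hD, derivative_mul, add_sub_cancel_right]
  exact dvd_mul_left _ _

theorem cmp (hlam : S_LAM) (hsym : S_SYM) (hpar : S_PAR) : S_CMP := by
  intro F _ _ _ hF P G H D hP hG hH hdeg hpos hDG hDH hGD hHD hGP hdvd
  have sG := sep_of_coprime P G D hDG hGD
  have sH := sep_of_coprime P H D hDH hHD
  have nG := der_ne G hpos sG
  have nH := der_ne H (by rw [← hdeg]; exact hpos) sH
  have e1 := hlam F P G hP.ne_zero hG.ne_zero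
  have e2 := hlam F P H hP.ne_zero hH.ne_zero
  have p1 := hpar F hF G hG sG
  have p2 := hpar F hF H hH sH
  rw [← hdeg] at p2
  have d1 := sy_der hsym P G D hP hG hDG nG
  have d2 := sy_der hsym P H D hP hH hDH nH
  obtain ⟨h1, -, -, h4, -, h6, h7⟩ := hsym F
  have s1 := h4 G P
  have s2 := h4 H P
  rw [← hdeg] at s2
  have s3 : sy P G = sy P H := h6 P G H hP hdvd
  have s4 : sy P G ≠ 0 := (h7 P G hP.ne_zero hG.ne_zero).2 hGP.symm
  have s5 : sy P G * sy P G = 1 := by
    rcases h1 P G with h | h | h
    · exact absurd h s4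
    · rw [h]; norm_num
    · rw [h]; norm_num
  have hc : quadraticChar F (-1) * quadraticChar F (-1) = 1 := by
    have := quadraticChar_sq_one (F := F) (a := -1) (by simp)
    rw [← this]; ring
  have hc1 : ∀ k : ℕ, quadraticChar F (-1) ^ k * quadraticChar F (-1) ^ k = 1 := by
    intro k
    rw [← mul_pow, hc, one_pow]
  have hm1 : ∀ k : ℕ, ((-1 : ℤ) ^ k) * (-1) ^ k = 1 := by
    intro k
    rw [← mul_pow]; norm_num
  have q1 := hc1 (G.natDegree * (G.natDegree - 1) / 2)
  have q2 := hc1 (G.natDegree * P.natDegree)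
  have q3 := hm1 G.natDegree
  have q4 := lam_sq P
  rw [e1, e2, d1, d2, s1, s2, ← s3, p1, p2]
  set A := sy G (derivative G)
  set B := sy H (derivative H)
  set x := quadraticChar F (-1) ^ (G.natDegree * (G.natDegree - 1) / 2)
  set y := quadraticChar F (-1) ^ (G.natDegree * P.natDegree)
  set z := (-1 : ℤ) ^ G.natDegree
  set l := lam P
  set s := sy P G
  calc l * (z * x * A) * (l * (z * x * B)) = (l * l) * (z * z) * (x * x) * (A * B) := by ring
    _ = A * B := by rw [q4, q3, q1]; ring
    _ = (y * y) * (s * s) * (A * B) := by rw [q2, s5]; ring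
    _ = y * s * A * (y * s * B) := by ring

end Pool.Agent.W465.LV
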