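import Pool.Agent.W465.LV.Defs

/-!
Chinese remainder theorem for a family of pairwise coprime moduli and one more modulus.
-/

namespace Pool.Agent.W465.LV

open Polynomial

theorem crt : S_CRT := by
  intro F _ ι _ N a E x hN hE
  classical
  have h := Ideal.exists_forall_sub_mem_ideal (R := F[X]) (ι := Option ι)
    (I := fun o => Ideal.span {o.elim E N})
    (by
      intro i j hij
      rw [Function.onFun, Ideal.isCoprime_span_singleton_iff]
      cases i with
      | none =>
        cases j with
        | none => exact absurd rfl hij
        | some j => exact (hE j).symm
      | some i =>
        cases j with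
        | none => exact hE i
        | some j => exact hN i j (fun h => hij (by rw [h])))
    (fun o => o.elim x a)
  obtain ⟨r, hr⟩ := h
  refine ⟨r, ?_, fun i => ?_⟩
  · have := hr none
    exact Ideal.mem_span_singleton.1 this
  · have := hr (some i)
    exact Ideal.mem_span_singleton.1 this

end Pool.Agent.W465.LV
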