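import Mathlib

/-!
Liouville function over `F[X]`, `F` a finite field of odd characteristic: definitions and the
statements of the parts of the project LV (all sign patterns occur).
-/

namespace Pool.Agent.W465.LV

open Polynomial

/-- Number of irreducible factors with multiplicity. -/
noncomputable def Om {F : Type} [Field F] (f : F[X]) : ℕ :=
  Multiset.card (UniqueFactorizationMonoid.factors f)

/-- The Liouville function of `F[X]`. -/
noncomputable def lam {F : Type} [Field F] (f : F[X]) : ℤ := (-1) ^ Om f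

/-- Quadratic character of the resultant. -/
noncomputable def sy {F : Type} [Field F] [Fintype F] [DecidableEq F] (A B : F[X]) : ℤ :=
  quadraticChar F (resultant A B A.natDegree B.natDegree)

/-- complete multiplicativity of the Liouville function -/
def S_LAM : Prop := ∀ (F : Type) [Field F] (f g : F[X]), f ≠ 0 → g ≠ 0 →
  lam (f * g) = lam f * lam g

/-- basic rules for the symbol -/
def S_SYM : Prop := ∀ (F : Type) [Field F] [Fintype F] [DecidableEq F],
  (∀ A B : F[X], sy A B = 0 ∨ sy A B = 1 ∨ sy A B = -1) ∧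
  (∀ A B C : F[X], A ≠ 0 → B ≠ 0 → sy (A * B) C = sy A C * sy B C) ∧
  (∀ A B C : F[X], B ≠ 0 → C ≠ 0 → sy A (B * C) = sy A B * sy A C) ∧
  (∀ A B : F[X], sy A B = quadraticChar F (-1) ^ (A.natDegree * B.natDegree) * sy B A) ∧
  (∀ A B C : F[X], A ≠ 0 → B.natDegree = C.natDegree → A ∣ B - C → sy A B = sy A C) ∧
  (∀ A B C : F[X], A.Monic → A ∣ B - C → sy A B = sy A C) ∧
  (∀ A B : F[X], A ≠ 0 → B ≠ 0 → (sy A B ≠ 0 ↔ IsCoprime A B))

/-- irreducible case of the parity theorem (Pellet, Stickelberger) -/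
def S_IRR : Prop := ∀ (F : Type) [Field F] [Fintype F] [DecidableEq F], ringChar F ≠ 2 →
  ∀ P : F[X], P.Monic → Irreducible P →
    sy P (derivative P) =
      (-1) ^ (P.natDegree + 1) * quadraticChar F (-1) ^ (P.natDegree * (P.natDegree - 1) / 2)

/-- parity theorem (Pellet, Stickelberger) -/
def S_PAR : Prop := ∀ (F : Type) [Field F] [Fintype F] [DecidableEq F], ringChar F ≠ 2 →
  ∀ G : F[X], G.Monic → G.Separable →
    lam G = (-1) ^ G.natDegree * quadraticChar F (-1) ^ (G.natDegree * (G.natDegree - 1) / 2)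
      * sy G (derivative G)

/-- existence of the moduli -/
def S_NEX : Prop := ∀ (F : Type) [Field F] (c : F), c ≠ 0 → ∀ K T : F[X], K ≠ 0 → T ≠ 0 →
  IsCoprime K T → ∃ N : F[X], N.Monic ∧ Even N.natDegree ∧ K ∣ N - C c ∧ T ∣ N - 1

/-- value of the symbols at the moduli -/
def S_NSY : Prop := ∀ (F : Type) [Field F] [Fintype F] [DecidableEq F] (c : F),
  quadraticChar F c = -1 → ∀ N : F[X], N.Monic → Even N.natDegree →
    (∀ K : F[X], Odd K.natDegree → K ∣ N - C c → sy N K = -1) ∧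
    (∀ B : F[X], B ≠ 0 → B ∣ N - 1 → sy N B = 1)

/-- one modulus with its toggle -/
def S_STEP : Prop := ∀ (F : Type) [Field F] [Fintype F] [DecidableEq F], ringChar F ≠ 2 →
  ∀ (ι : Type) [DecidableEq ι] (S : Finset ι) (j : ι) (b : ι → F[X]) (E : F[X]), E ≠ 0 → j ∈ S →
    (∀ i ∈ S, b i ≠ 0) → (∀ i ∈ S, i ≠ j → b i ≠ b j) →
    ∃ N u : F[X], N.Monic ∧ IsCoprime N E ∧ (∀ i ∈ S, sy N (b i) = 1) ∧
      (∀ i ∈ S, i ≠ j → sy N (b i + u) = 1) ∧ sy N (b j + u) = -1

/-- a polynomial divisible by all small primes -/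
def S_WEX : Prop := ∀ (F : Type) [Field F] [Finite F] (m : ℕ),
  ∃ W : F[X], W ≠ 0 ∧ ∀ P : F[X], Irreducible P → P.natDegree ≤ m → P ∣ W

/-- avoiding finitely many residues modulo all primes dividing `R` but not `Q` -/
def S_AVOID : Prop := ∀ (F : Type) [Field F] (p : ℕ) [Fact p.Prime] [CharP F p]
  (ι : Type) [Fintype ι] (c : ι → F[X]) (Q R : F[X]), Q ≠ 0 → R ≠ 0 →
    (∀ P : F[X], Irreducible P → P.natDegree ≤ Fintype.card ι → P ∣ Q) →
    ∃ D : F[X], Q ∣ D ∧ ∀ P : F[X], Irreducible P → P ∣ R → P ∣ Q ∨ ∀ i, ¬ P ∣ D ^ p + c i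

/-- p-th roots -/
def S_ROOT : Prop := ∀ (F : Type) [Field F] [Finite F] (p : ℕ) [Fact p.Prime] [CharP F p]
  (f : F[X]), derivative f = 0 → ∃ w : F[X], w ^ p = f

/-- a family of pairwise coprime moduli with toggles -/
def S_FAM : Prop := ∀ (F : Type) [Field F] [Fintype F] [DecidableEq F], ringChar F ≠ 2 →
  ∀ (ι : Type) [Fintype ι] [DecidableEq ι] (e : ι → Finset ι) (b : ι → ι → F[X]) (E : F[X]),
    E ≠ 0 → (∀ j, j ∈ e j) → (∀ j, ∀ i ∈ e j, b j i ≠ 0) →
    (∀ j, ∀ i ∈ e j, i ≠ j → b j i ≠ b j j) →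
    ∃ N u : ι → F[X], (∀ j, (N j).Monic) ∧ (∀ j, IsCoprime (N j) E) ∧
      (∀ i j, i ≠ j → IsCoprime (N i) (N j)) ∧
      (∀ j, ∀ i ∈ e j, sy (N j) (b j i) = 1) ∧
      (∀ j, ∀ i ∈ e j, i ≠ j → sy (N j) (b j i + u j) = 1) ∧
      (∀ j, sy (N j) (b j j + u j) = -1)

/-- Chinese remainder theorem -/
def S_CRT : Prop := ∀ (F : Type) [Field F] (ι : Type) [Fintype ι] (N a : ι → F[X]) (E x : F[X]),
  (∀ i j, i ≠ j → IsCoprime (N i) (N j)) → (∀ i, IsCoprime (N i) E) →
    ∃ f : F[X], E ∣ f - x ∧ ∀ i, N i ∣ f - a i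

end Pool.Agent.W465.LV
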