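import Pool.Agent.W465.LV.Defs

/-! Second batch of statements of the project LV. -/

namespace Pool.Agent.W465.LV

open Polynomial

/-- comparison of the signs of two polynomials `P * G`, `P * H` with the same derivative -/
def S_CMP : Prop := ∀ (F : Type) [Field F] [Fintype F] [DecidableEq F], ringChar F ≠ 2 →
  ∀ P G H D : F[X], P.Monic → G.Monic → H.Monic → G.natDegree = H.natDegree → 0 < G.natDegree →
    D = derivative (P * G) → D = derivative (P * H) → IsCoprime G D → IsCoprime H D →
    IsCoprime G P → P ∣ G - H → lam (P * G) * lam (P * H) = sy G D * sy H D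

/-- factorisation of the derivative -/
def S_PRD : Prop := ∀ (F : Type) [Field F] [Fintype F] [DecidableEq F],
  ∀ (ι : Type) (c : Finset ι) (N : ι → F[X]) (R G H D : F[X]) (p : ℕ), Odd p →
    (∀ j, (N j).Monic) → R ≠ 0 → G.Monic → H.Monic → G.natDegree = H.natDegree →
    D = (∏ j ∈ c, N j ^ p) * R → IsCoprime G D → IsCoprime H D → R ∣ G - H →
    sy G D * sy H D = ∏ j ∈ c, (sy (N j) G * sy (N j) H)

/-- effect of a toggle at one modulus -/
def S_TGL : Prop := ∀ (F : Type) [Field F] [Fintype F] [DecidableEq F],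
  ∀ (N P G H b a : F[X]) (p : ℕ), Odd p → N.Monic → P ≠ 0 → G ≠ 0 → H ≠ 0 → IsCoprime N P →
    N ∣ P * G - (b + a) ^ p → N ∣ P * H - b ^ p → sy N G * sy N H = sy N (b + a) * sy N b

end Pool.Agent.W465.LV
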