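import Pool.Agent.W465.LV.Defs

/-!
Project LV, part FAM: a family of pairwise coprime moduli (helper318).
-/

set_option autoImplicit false

namespace Pool.Agent.W465.LV

open Polynomial

theorem fam (hstep : S_STEP) : S_FAM := by
  intro F _ _ _ hchar ι _ _ e b E hE hej hb hbj
  have key : ∀ A : Finset ι, ∃ N u : ι → F[X],
      (∀ j ∈ A, (N j).Monic ∧ IsCoprime (N j) E ∧ (∀ i ∈ e j, sy (N j) (b j i) = 1) ∧
        (∀ i ∈ e j, i ≠ j → sy (N j) (b j i + u j) = 1) ∧ sy (N j) (b j j + u j) = -1) ∧
      (∀ i ∈ A, ∀ j ∈ A, i ≠ j → IsCoprime (N i) (N j)) := by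
    intro A
    induction A using Finset.induction_on with
    | empty => exact ⟨fun _ => 0, fun _ => 0, by simp, by simp⟩
    | insert a A ha ih =>
      obtain ⟨N, u, h1, h2⟩ := ih
      have hprod : (∏ j ∈ A, N j) ≠ 0 :=
        Finset.prod_ne_zero_iff.2 (fun j hj => (h1 j hj).1.ne_zero)
      obtain ⟨N', u', g1, g2, g3, g4, g5⟩ := hstep F hchar ι (e a) a (b a)
        (E * ∏ j ∈ A, N j) (mul_ne_zero hE hprod) (hej a) (hb a) (hbj a)
      have g2a : IsCoprime N' E := g2.of_mul_right_left
      have g2b : ∀ j ∈ A, IsCoprime N' (N j) := by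
        intro j hj
        have : IsCoprime N' (∏ j ∈ A, N j) := g2.of_mul_right_right
        exact IsCoprime.prod_right_iff.1 this j hj
      refine ⟨Function.update N a N', Function.update u a u', ?_, ?_⟩
      · intro j hj
        rcases Finset.mem_insert.1 hj with rfl | hj
        · simp only [Function.update_self]
          exact ⟨g1, g2a, g3, g4, g5⟩
        · have hne : j ≠ a := fun h => ha (h ▸ hj)
          rw [Function.update_of_ne hne, Function.update_of_ne hne]
          exact h1 j hj
      · intro i hi j hj hij
        rcases Finset.mem_insert.1 hi with hia | hiA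
        · rcases Finset.mem_insert.1 hj with hja | hjA
          · exact absurd (hia.trans hja.symm) hij
          · subst hia
            rw [Function.update_self, Function.update_of_ne hij.symm]
            exact g2b j hjA
        · rcases Finset.mem_insert.1 hj with hja | hjA
          · subst hja
            rw [Function.update_self, Function.update_of_ne hij]
            exact (g2b i hiA).symm
          · have hni : i ≠ a := fun h => ha (h ▸ hiA)
            have hnj : j ≠ a := fun h => ha (h ▸ hjA)
            rw [Function.update_of_ne hni, Function.update_of_ne hnj]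
            exact h2 i hiA j hjA hij
  obtain ⟨N, u, h1, h2⟩ := key Finset.univ
  exact ⟨N, u, fun j => (h1 j (Finset.mem_univ _)).1, fun j => (h1 j (Finset.mem_univ _)).2.1,
    fun i j hij => h2 i (Finset.mem_univ _) j (Finset.mem_univ _) hij,
    fun j => (h1 j (Finset.mem_univ _)).2.2.1, fun j => (h1 j (Finset.mem_univ _)).2.2.2.1,
    fun j => (h1 j (Finset.mem_univ _)).2.2.2.2⟩

end Pool.Agent.W465.LV
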