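import Pool.Agent.W465.LV.Defs
import Pool.Agent.W465.LV.Defs2
import Pool.Agent.W597.FL.IRR

/-!
# Parity of the resultant for irreducible polynomials
-/

set_option autoImplicit false

namespace Pool.Agent.W465.LV

open Polynomial

theorem irr : S_IRR := by
  intro F _ _ _ hF P hP hirr
  have h := Pool.Agent.W597.FL.irr F hF P hP hirr
  have e : sy P (derivative P) = Pool.Agent.W500.FL.jac P (derivative P) := rfl
  rw [e, h, pow_succ]
  ring

end Pool.Agent.W465.LV
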