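import Pool.Agent.W465.LV.Defs

set_option autoImplicit false

namespace Pool.Agent.W465.LV

open Polynomial

theorem Om_mul {F : Type} [Field F] (f g : F[X]) (hf : f ≠ 0) (hg : g ≠ 0) :
    Om (f * g) = Om f + Om g := by
  unfold Om
  have h := UniqueFactorizationMonoid.factors_mul hf hg
  have h2 := Multiset.card_eq_card_of_rel h
  rw [h2, Multiset.card_add]

theorem lamMul : S_LAM := by
  intro F _ f g hf hg
  unfold lam
  rw [Om_mul f g hf hg, pow_add]

end Pool.Agent.W465.LV
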