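import Pool.Agent.W465.LV.Defs

/-!
Existence of the moduli (Chinese remainder theorem), monic of even degree.
-/

set_option autoImplicit false

namespace Pool.Agent.W465.LV

open Polynomial

theorem nex : S_NEX := by
  intro F _ c _ K T hK hT hKT
  obtain ⟨u, v, huv⟩ := hKT
  have hKTne : K * T ≠ 0 := mul_ne_zero hK hT
  set M : F[X] := K * T * C ((K * T).leadingCoeff⁻¹) with hM
  have hMm : M.Monic := monic_mul_leadingCoeff_inv hKTne
  set x : F[X] := C c * (v * T) + u * K with hx
  set k : ℕ := M.natDegree + 2 * (x.natDegree + 1) with hk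
  have hmon : (M * X ^ k).Monic := hMm.mul (monic_X_pow k)
  have hdeg : (M * X ^ k).natDegree = M.natDegree + k := by
    rw [hMm.natDegree_mul (monic_X_pow k), natDegree_X_pow]
  have hlt : x.natDegree < (M * X ^ k).natDegree := by rw [hdeg]; omega
  refine ⟨x + M * X ^ k, ?_, ?_, ?_, ?_⟩
  · exact hmon.add_of_right (degree_lt_degree hlt)
  · rw [natDegree_add_eq_right_of_natDegree_lt hlt, hdeg]
    exact ⟨M.natDegree + (x.natDegree + 1), by omega⟩
  · refine ⟨u * (1 - C c) + T * C ((K * T).leadingCoeff⁻¹) * X ^ k, ?_⟩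
    have : v * T = 1 - u * K := by rw [← huv]; ring
    rw [hx, this, hM]; ring
  · refine ⟨v * (C c - 1) + K * C ((K * T).leadingCoeff⁻¹) * X ^ k, ?_⟩
    have : u * K = 1 - v * T := by rw [← huv]; ring
    rw [hx, this, hM]; ring

end Pool.Agent.W465.LV
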