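import Pool.Agent.W465.LV.Defs

/-!
Values of the symbol at the moduli.
-/

set_option autoImplicit false

namespace Pool.Agent.W465.LV

open Polynomial

theorem nsy_key (F : Type) [Field F] [Fintype F] [DecidableEq F] (d : F) (N K P : F[X])
    (he : Even N.natDegree) (hK : K ≠ 0) (hP : P ≠ 0) (h : N - C d = K * P) :
    sy N K = quadraticChar F d ^ K.natDegree := by
  have hdeg : P.natDegree + K.natDegree ≤ N.natDegree := by
    have h1 : (K * P).natDegree = K.natDegree + P.natDegree := natDegree_mul hK hP
    have h2 : (N - C d).natDegree ≤ N.natDegree := by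
      refine (natDegree_sub_le _ _).trans ?_
      simp
    rw [h, h1] at h2
    omega
  have hN : N = C d + K * P := by rw [← h]; ring
  obtain ⟨m, hm⟩ := he
  have e1 : resultant N K N.natDegree K.natDegree
      = resultant K N K.natDegree N.natDegree := by
    rw [resultant_comm]
    have : Even (N.natDegree * K.natDegree) := by
      rw [hm]; exact ⟨m * K.natDegree, by ring⟩
    rw [this.neg_one_pow, one_mul]
  have e2 : resultant K N K.natDegree N.natDegree
      = resultant K (C d) K.natDegree N.natDegree := by
    conv_lhs => rw [show resultant K N K.natDegree N.natDegree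
      = resultant K (C d + K * P) K.natDegree N.natDegree by rw [← hN]]
    exact resultant_add_mul_right _ _ _ _ _ hdeg le_rfl
  unfold sy
  rw [e1, e2, resultant_C_right, map_mul, map_pow, map_pow, hm, ← two_mul, pow_mul,
    quadraticChar_sq_one (by simpa using hK), one_pow, one_mul]

theorem nsy : S_NSY := by
  intro F _ _ _ c hc N hN he
  constructor
  · intro K hK hd
    obtain ⟨P, hP⟩ := hd
    have hK0 : K ≠ 0 := by rintro rfl; simp at hK
    have hP0 : P ≠ 0 := by
      rintro rfl
      rw [mul_zero, sub_eq_zero] at hP
      have h1 : c = 1 := by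
        have := hN
        rw [hP, Monic, leadingCoeff_C] at this
        exact this
      rw [h1, map_one] at hc
      norm_num at hc
    rw [nsy_key F c N K P he hK0 hP0 hP, hc, hK.neg_one_pow]
  · intro B hB hd
    obtain ⟨P, hP⟩ := hd
    by_cases hP0 : P = 0
    · have h1 : N = 1 := by rw [hP0, mul_zero, sub_eq_zero] at hP; exact hP
      subst h1
      unfold sy
      simp
    · have := nsy_key F 1 N B P he hB hP0 (by simpa using hP)
      rw [this, map_one, one_pow]

end Pool.Agent.W465.LV
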