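import Pool.Agent.W465.LV.Defs
import Pool.Agent.W465.LV.Defs2

/-! Parity theorem (Pellet, Stickelberger) for separable polynomials from the irreducible case. -/

set_option autoImplicit false

namespace Pool.Agent.W465.LV

open Polynomial

namespace ParX

theorem tri (n : ℕ) : 2 * (n * (n - 1) / 2) = n * (n - 1) :=
  Nat.two_mul_div_two_of_even (Nat.even_mul_pred_self n)

theorem tri_add (a b : ℕ) :
    (a + b) * (a + b - 1) / 2 = a * (a - 1) / 2 + b * (b - 1) / 2 + a * b := by
  have h : (a + b) * (a + b - 1) = a * (a - 1) + b * (b - 1) + 2 * (a * b) := by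
    rcases a with _ | a
    · simp
    · rcases b with _ | b
      · simp
      · have e1 : a + 1 + (b + 1) - 1 = a + b + 1 := by omega
        rw [e1, Nat.add_sub_cancel, Nat.add_sub_cancel]
        ring
  have h1 := tri (a + b)
  have h2 := tri a
  have h3 := tri b
  omega

theorem Om_irr {F : Type} [Field F] (P : F[X]) (hP : Irreducible P) : Om P = 1 := by
  classical
  have h1 : Multiset.card (UniqueFactorizationMonoid.normalizedFactors P) = 1 := by
    rw [UniqueFactorizationMonoid.normalizedFactors_irreducible hP, Multiset.card_singleton]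
  unfold UniqueFactorizationMonoid.normalizedFactors at h1
  rw [Multiset.card_map] at h1
  exact h1

theorem lam_irr {F : Type} [Field F] (P : F[X]) (hP : Irreducible P) : lam P = -1 := by
  unfold lam
  rw [Om_irr P hP, pow_one]

theorem lam_one {F : Type} [Field F] : lam (1 : F[X]) = 1 := by
  unfold lam Om
  rw [UniqueFactorizationMonoid.factors_one, Multiset.card_zero, pow_zero]

theorem der_ne {F : Type} [Field F] (P : F[X]) (hs : P.Separable) (hu : ¬ IsUnit P) :
    derivative P ≠ 0 := by
  intro h
  apply hu
  have h1 : IsCoprime P (derivative P) := hs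
  rw [h] at h1
  exact isCoprime_zero_right.1 h1

theorem sq_e (F : Type) [Field F] [Fintype F] [DecidableEq F] :
    quadraticChar F (-1) ^ 2 = 1 :=
  quadraticChar_sq_one (neg_ne_zero.2 one_ne_zero)

theorem sy_one {F : Type} [Field F] [Fintype F] [DecidableEq F] :
    sy (1 : F[X]) (derivative 1) = 1 := by
  unfold sy
  simp

end ParX

open ParX in
theorem par (hlam : S_LAM) (hsym : S_SYM) (hirr : S_IRR) : S_PAR := by
  intro F _ _ _ hF
  obtain ⟨r1, r2, r3, r4, -, r6, r7⟩ := hsym F
  have he2 := sq_e F
  -- the irreducible case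
  have hI : ∀ P : F[X], P.Monic → Irreducible P →
      lam P = (-1) ^ P.natDegree * quadraticChar F (-1) ^ (P.natDegree * (P.natDegree - 1) / 2)
      * sy P (derivative P) := by
    intro P hPm hPi
    rw [lam_irr P hPi, hirr F hF P hPm hPi]
    generalize P.natDegree * (P.natDegree - 1) / 2 = t
    have h1 : (quadraticChar F (-1)) ^ t * (quadraticChar F (-1)) ^ t = 1 := by
      rw [← mul_pow, ← sq, he2, one_pow]
    have h2 : ((-1 : ℤ)) ^ P.natDegree * (-1) ^ P.natDegree = 1 := by
      rw [← mul_pow]
      norm_num
    rw [pow_succ]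
    linear_combination ((-1 : ℤ) ^ P.natDegree * (-1) ^ P.natDegree) * h1 + h2
  suffices hmain : ∀ n : ℕ, ∀ G : F[X], G.natDegree ≤ n → G.Monic → G.Separable →
      lam G = (-1) ^ G.natDegree * quadraticChar F (-1) ^ (G.natDegree * (G.natDegree - 1) / 2)
      * sy G (derivative G) from fun G hG hs => hmain _ G le_rfl hG hs
  intro n
  induction n with
  | zero =>
    intro G hn hG hs
    have hG1 : G = 1 := hG.natDegree_eq_zero.1 (by omega)
    subst hG1
    rw [lam_one, sy_one]
    simp
  | succ n ih =>
    intro G hn hG hs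
    by_cases hG1 : G = 1
    · subst hG1
      rw [lam_one, sy_one]
      simp
    have hGu : ¬ IsUnit G := fun h => hG1 (hG.isUnit_iff.1 h)
    obtain ⟨P, hPm, hPi, H, rfl⟩ := Polynomial.exists_monic_irreducible_factor G hGu
    have hH : H.Monic := hPm.of_mul_monic_left hG
    by_cases hH1 : H = 1
    · subst hH1
      rw [mul_one]
      exact hI P hPm hPi
    have hHu : ¬ IsUnit H := fun h => hH1 (hH.isUnit_iff.1 h)
    have hPs : P.Separable := hs.of_mul_left
    have hHs : H.Separable := hs.of_mul_right
    have hco : IsCoprime P H := hs.isCoprime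
    have hP' := der_ne P hPs hPi.not_isUnit
    have hH' := der_ne H hHs hHu
    have hdeg : (P * H).natDegree = P.natDegree + H.natDegree := hPm.natDegree_mul hH
    have hPd : 0 < P.natDegree := hPi.natDegree_pos
    have hind := ih H (by omega) hH hHs
    have e1 : sy (P * H) (derivative (P * H)) =
        sy P (derivative (P * H)) * sy H (derivative (P * H)) :=
      r2 _ _ _ hPm.ne_zero hH.ne_zero
    have e2 : sy P (derivative (P * H)) = sy P (derivative P) * sy P H := by
      rw [← r3 _ _ _ hP' hH.ne_zero]
      refine r6 _ _ _ hPm ⟨derivative H, ?_⟩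
      rw [derivative_mul]
      ring
    have e3 : sy H (derivative (P * H)) = sy H (derivative H) * sy H P := by
      rw [← r3 _ _ _ hH' hPm.ne_zero]
      refine r6 _ _ _ hH ⟨derivative P, ?_⟩
      rw [derivative_mul]
      ring
    have e4 : sy P H = quadraticChar F (-1) ^ (P.natDegree * H.natDegree) * sy H P := r4 _ _
    have e5 : sy H P * sy H P = 1 := by
      have h0 : sy H P ≠ 0 := (r7 H P hH.ne_zero hPm.ne_zero).2 hco.symm
      rcases r1 H P with h | h | h
      · exact absurd h h0
      · rw [h]; norm_num
      · rw [h]; norm_num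
    have e6 := hI P hPm hPi
    rw [hlam F P H hPm.ne_zero hH.ne_zero, hind, e6, e1, e2, e3, e4, hdeg, tri_add, pow_add,
      pow_add, pow_add]
    generalize quadraticChar F (-1) ^ (P.natDegree * (P.natDegree - 1) / 2) = x1
    generalize quadraticChar F (-1) ^ (H.natDegree * (H.natDegree - 1) / 2) = x2
    have e7 : quadraticChar F (-1) ^ (P.natDegree * H.natDegree) *
        quadraticChar F (-1) ^ (P.natDegree * H.natDegree) = 1 := by
      rw [← mul_pow, ← sq, he2, one_pow]
    generalize quadraticChar F (-1) ^ (P.natDegree * H.natDegree) = x3 at *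
    generalize sy H P = s at *
    generalize sy H (derivative H) = y1 at *
    generalize sy P (derivative P) = y2 at *
    generalize ((-1 : ℤ)) ^ P.natDegree = a at *
    generalize ((-1 : ℤ)) ^ H.natDegree = b at *
    have : a * b * (x1 * x2 * x3) * (y2 * (x3 * s) * (y1 * s)) =
        a * x1 * y2 * (b * x2 * y1) * (x3 * x3) * (s * s) := by ring
    rw [this, e7, e5, mul_one, mul_one]

end Pool.Agent.W465.LV
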