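import Pool.Agent.W465.LV.Defs
import Pool.Agent.W465.LV.Defs2

/-! Part PRD of the project LV: factorisation of the derivative. -/

set_option autoImplicit false

namespace Pool.Agent.W465.LV

open Polynomial

theorem prd_pow_odd (x : ℤ) (hx : x = 0 ∨ x = 1 ∨ x = -1) (p : ℕ) (hp : Odd p) : x ^ p = x := by
  rcases hx with rfl | rfl | rfl
  · exact zero_pow (Nat.ne_of_gt hp.pos)
  · exact one_pow p
  · exact hp.neg_one_pow

theorem prd_sy_pow (hsym : S_SYM) (F : Type) [Field F] [Fintype F] [DecidableEq F]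
    (A N : F[X]) (hN : N ≠ 0) (k : ℕ) : sy A (N ^ (k + 1)) = sy A N ^ (k + 1) := by
  obtain ⟨-, -, h3, -⟩ := hsym F
  induction k with
  | zero => simp
  | succ k ih => rw [pow_succ N (k + 1), h3 A _ _ (pow_ne_zero _ hN) hN, ih, ← pow_succ]

theorem prd_prod (hsym : S_SYM) (F : Type) [Field F] [Fintype F] [DecidableEq F]
    (ι : Type) (c : Finset ι) (N : ι → F[X]) (R A : F[X]) (p : ℕ) (hp : Odd p)
    (hN : ∀ j, N j ≠ 0) (hR : R ≠ 0) :
    sy A ((∏ j ∈ c, N j ^ p) * R) = (∏ j ∈ c, sy A (N j)) * sy A R := by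
  classical
  obtain ⟨h1, -, h3, -⟩ := hsym F
  induction c using Finset.induction_on with
  | empty => simp
  | insert a s ha ih =>
    rw [Finset.prod_insert ha, Finset.prod_insert ha, mul_assoc, h3 A _ _ (pow_ne_zero _ (hN a))
      (mul_ne_zero (Finset.prod_ne_zero_iff.2 fun j _ => pow_ne_zero _ (hN j)) hR), ih, mul_assoc]
    congr 1
    obtain ⟨k, rfl⟩ : ∃ k, p = k + 1 := ⟨p - 1, (Nat.succ_pred_eq_of_pos hp.pos).symm⟩
    rw [prd_sy_pow hsym F A (N a) (hN a) k, prd_pow_odd _ (h1 A (N a)) _ hp]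

theorem prd_sq (F : Type) [Field F] [Fintype F] [DecidableEq F] (k : ℕ) :
    quadraticChar F (-1) ^ k * quadraticChar F (-1) ^ k = 1 := by
  rw [← mul_pow, ← map_mul]
  simp

theorem prd (hsym : S_SYM) : S_PRD := by
  intro F _ _ _ ι c N R G H D p hp hN hR hG hH hdeg hD hGD hHD hRd
  obtain ⟨h1, -, -, h4, h5, -, h7⟩ := hsym F
  have hN0 : ∀ j, N j ≠ 0 := fun j => (hN j).ne_zero
  have hGR : IsCoprime G R := by
    rw [hD] at hGD
    exact hGD.of_mul_right_right
  have e1 : sy G R = sy H R := by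
    rw [h4 G R, h4 H R, hdeg, h5 R G H hR hdeg hRd]
  have e2 : sy G R * sy H R = 1 := by
    rw [← e1]
    have hne : sy G R ≠ 0 := (h7 G R hG.ne_zero hR).2 hGR
    rcases h1 G R with h | h | h
    · exact absurd h hne
    · rw [h]; norm_num
    · rw [h]; norm_num
  have e3 : ∀ j, sy G (N j) * sy H (N j) = sy (N j) G * sy (N j) H := by
    intro j
    rw [h4 G (N j), h4 H (N j), hdeg]
    have := prd_sq F (H.natDegree * (N j).natDegree)
    calc _ = (quadraticChar F (-1) ^ (H.natDegree * (N j).natDegree) *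
        quadraticChar F (-1) ^ (H.natDegree * (N j).natDegree)) *
        (sy (N j) G * sy (N j) H) := by ring
      _ = _ := by rw [this, one_mul]
  rw [hD, prd_prod hsym F ι c N R G p hp hN0 hR, prd_prod hsym F ι c N R H p hp hN0 hR]
  calc _ = (∏ j ∈ c, sy G (N j)) * (∏ j ∈ c, sy H (N j)) * (sy G R * sy H R) := by ring
    _ = ∏ j ∈ c, (sy G (N j) * sy H (N j)) := by rw [e2, mul_one, Finset.prod_mul_distrib]
    _ = _ := Finset.prod_congr rfl fun j _ => e3 j

end Pool.Agent.W465.LV
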