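import Pool.Agent.W465.LV.Defs

/-!
p-th roots of polynomials with zero derivative over a finite field.
-/

set_option autoImplicit false

namespace Pool.Agent.W465.LV

open Polynomial

theorem root : S_ROOT := by
  intro F _ _ p _ _ f hf
  have h := expand_contract p hf (Fact.out : p.Prime).ne_zero
  refine ⟨map (frobeniusEquiv F p).symm.toRingHom (contract p f), ?_⟩
  rw [← map_frobenius_expand, map_expand, map_map]
  have h2 : (frobenius F p).comp (frobeniusEquiv F p).symm.toRingHom = RingHom.id F := by
    ext x
    simp
  rw [h2, map_id, h]

end Pool.Agent.W465.LV
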