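import Pool.Agent.W465.LV.Defs

/-! Part LV-STEP (helper166): one modulus with its toggle. -/

set_option autoImplicit false

namespace Pool.Agent.W465.LV

open Polynomial

theorem step (hsym : S_SYM) (hnex : S_NEX) (hnsy : S_NSY) : S_STEP := by
  intro F _ _ _ hF ι _ S j b E hE hj hb hbne
  obtain ⟨c, hc⟩ := FiniteField.exists_nonsquare hF
  have hqc : quadraticChar F c = -1 := quadraticChar_neg_one_iff_not_isSquare.2 hc
  have hc0 : c ≠ 0 := by
    rintro rfl
    exact hc (IsSquare.zero)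
  -- the polynomial Z
  obtain ⟨Z, hZdvd, hZodd⟩ : ∃ Z : F[X],
      (E * (∏ i ∈ S, b i) * (∏ i ∈ S.erase j, (b i - b j))) ∣ Z ∧ Odd Z.natDegree := by
    have h0 : (E * (∏ i ∈ S, b i) * (∏ i ∈ S.erase j, (b i - b j))) ≠ 0 := by
      refine mul_ne_zero (mul_ne_zero hE (Finset.prod_ne_zero_iff.2 hb)) ?_
      refine Finset.prod_ne_zero_iff.2 fun i hi => ?_
      exact sub_ne_zero.2 (hbne i (Finset.mem_of_mem_erase hi) (Finset.ne_of_mem_erase hi))
    rcases Nat.even_or_odd
      (E * (∏ i ∈ S, b i) * (∏ i ∈ S.erase j, (b i - b j))).natDegree with he | ho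
    · refine ⟨X * (E * (∏ i ∈ S, b i) * (∏ i ∈ S.erase j, (b i - b j))), dvd_mul_left _ _, ?_⟩
      rw [natDegree_X_mul h0]
      exact he.add_one
    · exact ⟨_, dvd_rfl, ho⟩
  set K : F[X] := 1 + Z with hK
  have hKdeg : K.natDegree = Z.natDegree := by
    rw [hK]
    apply natDegree_add_eq_right_of_natDegree_lt
    rw [natDegree_one]
    exact hZodd.pos
  have hKodd : Odd K.natDegree := by rw [hKdeg]; exact hZodd
  have hK0 : K ≠ 0 := by
    intro h
    rw [h, natDegree_zero] at hKodd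
    exact absurd hKodd (by decide)
  have hKunit : ¬ IsUnit K := by
    intro h
    have := natDegree_eq_zero_of_isUnit h
    rw [this] at hKodd
    exact absurd hKodd (by decide)
  have hKZ : IsCoprime K Z := ⟨1, -1, by rw [hK]; ring⟩
  have hdE : E ∣ Z := (dvd_trans (dvd_mul_right _ _) (dvd_mul_right _ _)).trans hZdvd
  have hdb : (∏ i ∈ S, b i) ∣ Z := (dvd_trans (dvd_mul_left _ _) (dvd_mul_right _ _)).trans hZdvd
  have hdd : (∏ i ∈ S.erase j, (b i - b j)) ∣ Z := (dvd_mul_left _ _).trans hZdvd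
  have hcu : ∀ i ∈ S.erase j, IsCoprime K (b i + b j * Z) := by
    intro i hi
    have h1 : (b i - b j) ∣ Z := (Finset.dvd_prod_of_mem (fun i => b i - b j) hi).trans hdd
    have h2 : IsCoprime K (b i - b j) := hKZ.of_isCoprime_of_dvd_right h1
    have h3 := h2.add_mul_right_right (b j)
    have h4 : b i - b j + b j * K = b i + b j * Z := by rw [hK]; ring
    rwa [h4] at h3
  have hne : ∀ i ∈ S.erase j, b i + b j * Z ≠ 0 := by
    intro i hi h
    have h1 := hcu i hi
    rw [h, isCoprime_zero_right] at h1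
    exact hKunit h1
  set T : F[X] := E * (∏ i ∈ S, b i) * (∏ i ∈ S.erase j, (b i + b j * Z)) with hT
  have hT0 : T ≠ 0 := mul_ne_zero (mul_ne_zero hE (Finset.prod_ne_zero_iff.2 hb))
    (Finset.prod_ne_zero_iff.2 hne)
  have hcop : IsCoprime K T := by
    rw [hT]
    refine IsCoprime.mul_right (IsCoprime.mul_right ?_ ?_) ?_
    · exact hKZ.of_isCoprime_of_dvd_right hdE
    · exact hKZ.of_isCoprime_of_dvd_right hdb
    · exact IsCoprime.prod_right hcu
  obtain ⟨N, hNm, hNe, hKN, hTN⟩ := hnex F c hc0 K T hK0 hT0 hcop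
  obtain ⟨h1, h2⟩ := hnsy F c hqc N hNm hNe
  have hET : E ∣ T := dvd_trans (dvd_mul_right _ _) (dvd_mul_right _ _)
  refine ⟨N, b j * Z, hNm, ?_, ?_, ?_, ?_⟩
  · obtain ⟨q, hq⟩ := hET.trans hTN
    refine ⟨1, -q, ?_⟩
    have : N = 1 + E * q := by rw [← hq]; ring
    rw [this]; ring
  · intro i hi
    refine h2 _ (hb i hi) (dvd_trans ?_ hTN)
    exact (Finset.dvd_prod_of_mem b hi).trans (dvd_trans (dvd_mul_left _ _) (dvd_mul_right _ _))
  · intro i hi hij
    have hi' : i ∈ S.erase j := Finset.mem_erase.2 ⟨hij, hi⟩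
    refine h2 _ (hne i hi') (dvd_trans ?_ hTN)
    exact (Finset.dvd_prod_of_mem (fun i => b i + b j * Z) hi').trans (dvd_mul_left _ _)
  · have h3 : b j + b j * Z = b j * K := by rw [hK]; ring
    rw [h3, (hsym F).2.2.1 N (b j) K (hb j hj) hK0, h1 K hKodd hKN,
      h2 (b j) (hb j hj) (dvd_trans ((Finset.dvd_prod_of_mem b hj).trans
        (dvd_trans (dvd_mul_left _ _) (dvd_mul_right _ _))) hTN)]
    norm_num

end Pool.Agent.W465.LV
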