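import Pool.Agent.W465.LV.Defs

/-!
Rules for the quadratic character of the resultant (project LV).
-/

set_option autoImplicit false

namespace Pool.Agent.W465.LV

open Polynomial

theorem sym_monic_deg {F : Type} [Field F] (A B : F[X]) (hA : A.Monic) (N : ℕ)
    (hN : B.natDegree ≤ N) :
    resultant A B A.natDegree N = resultant A B A.natDegree B.natDegree := by
  obtain ⟨k, rfl⟩ := Nat.exists_eq_add_of_le hN
  rw [resultant_add_right_deg A B _ _ _ le_rfl, hA.coeff_natDegree, one_pow, one_mul]

theorem sym : S_SYM := by
  intro F _ _ _
  refine ⟨?_, ?_, ?_, ?_, ?_, ?_, ?_⟩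
  · intro A B
    unfold sy
    by_cases h : resultant A B A.natDegree B.natDegree = 0
    · left
      rw [h]
      exact quadraticChar_zero
    · right
      exact quadraticChar_dichotomy h
  · intro A B C hA hB
    unfold sy
    rw [natDegree_mul hA hB, resultant_mul_left A B C _ le_rfl, map_mul]
  · intro A B C hB hC
    unfold sy
    rw [natDegree_mul hB hC, resultant_mul_right A B C _ le_rfl, map_mul]
  · intro A B
    unfold sy
    rw [resultant_comm A B, map_mul, map_pow]
  · intro A B C hA hd hdvd
    unfold sy
    obtain ⟨p, hp⟩ := hdvd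
    have hB : B = C + A * p := by rw [← hp]; ring
    by_cases hp0 : p = 0
    · rw [hB, hp0, mul_zero, add_zero]
    · have h1 : (A * p).natDegree ≤ C.natDegree := by
        rw [← hp]
        refine (natDegree_sub_le _ _).trans ?_
        rw [hd, max_self]
      rw [natDegree_mul hA hp0] at h1
      rw [hd]
      conv_lhs => rw [hB]
      rw [resultant_add_mul_right A C p _ _ (by omega) le_rfl]
  · intro A B C hA hdvd
    unfold sy
    obtain ⟨p, hp⟩ := hdvd
    have hB : B = C + A * p := by rw [← hp]; ring
    set N := max (max B.natDegree C.natDegree) (p.natDegree + A.natDegree) with hN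
    rw [← sym_monic_deg A B hA N (le_trans (le_max_left _ _) (le_max_left _ _)),
      ← sym_monic_deg A C hA N (le_trans (le_max_right _ _) (le_max_left _ _))]
    conv_lhs => rw [hB]
    rw [resultant_add_mul_right A C p _ _ (le_max_right _ _) le_rfl]
  · intro A B hA hB
    unfold sy
    rw [ne_eq, quadraticChar_eq_zero_iff, resultant_eq_zero_iff]
    constructor
    · intro h
      by_contra hc
      exact h ⟨Or.inl hA, hc⟩
    · intro h hc
      exact hc.2 h

end Pool.Agent.W465.LV
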