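import Pool.Agent.W465.LV.Defs2

set_option autoImplicit false

namespace Pool.Agent.W465.LV

open Polynomial

theorem tgl (hsym : S_SYM) : S_TGL := by
  intro F _ _ _ N P G H b a p hp hN hP hG hH hcop h1 h2
  obtain ⟨r1, -, r3, -, -, r6, r7⟩ := hsym F
  have hN0 : N ≠ 0 := hN.ne_zero
  have hpow : ∀ x : F[X], x ≠ 0 → ∀ k : ℕ, sy N (x ^ (k + 1)) = sy N x ^ (k + 1) := by
    intro x hx k
    induction k with
    | zero => simp
    | succ k ih =>
      rw [pow_succ x (k + 1), r3 N (x ^ (k + 1)) x (pow_ne_zero _ hx) hx, ih,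
        pow_succ (sy N x) (k + 1)]
  have hp0 : p ≠ 0 := by
    rintro rfl; simp at hp
  have hodd : ∀ x : F[X], sy N (x ^ p) = sy N x := by
    intro x
    by_cases hx : x = 0
    · subst hx; rw [zero_pow hp0]
    · obtain ⟨k, rfl⟩ : ∃ k, p = k + 1 := ⟨p - 1, by omega⟩
      rw [hpow x hx k]
      rcases r1 N x with h | h | h <;> rw [h]
      · simp
      · simp
      · exact hp.neg_one_pow
  have hG' : sy N P * sy N G = sy N (b + a) := by
    rw [← r3 N P G hP hG, r6 N (P * G) ((b + a) ^ p) hN h1, hodd]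
  have hH' : sy N P * sy N H = sy N b := by
    rw [← r3 N P H hP hH, r6 N (P * H) (b ^ p) hN h2, hodd]
  have hsq : sy N P * sy N P = 1 := by
    have hne : sy N P ≠ 0 := (r7 N P hN0 hP).2 hcop
    rcases r1 N P with h | h | h
    · exact absurd h hne
    · rw [h]; norm_num
    · rw [h]; norm_num
  calc sy N G * sy N H = (sy N P * sy N P) * (sy N G * sy N H) := by rw [hsq, one_mul]
    _ = (sy N P * sy N G) * (sy N P * sy N H) := by ring
    _ = sy N (b + a) * sy N b := by rw [hG', hH']

end Pool.Agent.W465.LV
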