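import Pool.Agent.W465.LV.Defs

/-!
LV-WEX: a nonzero polynomial divisible by all irreducible polynomials of small degree.
-/

set_option autoImplicit false

namespace Pool.Agent.W465.LV

open Polynomial

theorem wex : S_WEX := by
  intro F _ _ m
  have hfin : ({P : F[X] | P ≠ 0 ∧ P.natDegree ≤ m} : Set F[X]).Finite := by
    have hinj : Set.InjOn (fun (P : F[X]) (i : Fin (m + 1)) => P.coeff i)
        {P : F[X] | P ≠ 0 ∧ P.natDegree ≤ m} := by
      intro P hP Q hQ hPQ
      ext n
      by_cases hn : n < m + 1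
      · exact congrFun hPQ ⟨n, hn⟩
      · rw [coeff_eq_zero_of_natDegree_lt (lt_of_le_of_lt hP.2 (by omega)),
          coeff_eq_zero_of_natDegree_lt (lt_of_le_of_lt hQ.2 (by omega))]
    exact Set.Finite.of_finite_image (Set.toFinite _) hinj
  refine ⟨∏ P ∈ hfin.toFinset, P, ?_, ?_⟩
  · rw [Finset.prod_ne_zero_iff]
    intro P hP
    exact ((Set.Finite.mem_toFinset hfin).mp hP).1
  · intro P hP hdeg
    exact Finset.dvd_prod_of_mem (fun P : F[X] => P)
      ((Set.Finite.mem_toFinset hfin).mpr ⟨hP.ne_zero, hdeg⟩)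

end Pool.Agent.W465.LV
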